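import Pool.Agent.MWL.Stmts

/-!
# Block MWL, row KEY: related vectors agree in every block where they do not absorb
-/

set_option autoImplicit false

namespace Pool.Agent.MWL.H7

open Pool.Agent.MVO

theorem psh_fix {k : ℕ} {f a : ℕ → ℕ} (h : ∀ t ≤ k, a t ≠ 0 → f t = t) :
    ∀ j ≤ k, psh k f a j = a j := by
  intro j hj
  unfold psh
  have h1 : ∑ i ∈ Finset.range (k + 1), (if f i = j then a i else 0)
      = ∑ i ∈ Finset.range (k + 1), (if i = j then a i else 0) := by
    refine Finset.sum_congr rfl fun t ht => ?_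
    rw [Finset.mem_range] at ht
    by_cases h0 : a t = 0
    · rw [h0]
      simp
    · rw [h t (by omega) h0]
  rw [h1, Finset.sum_ite_eq', if_pos (Finset.mem_range.2 (by omega))]

theorem psh_one {k : ℕ} {f a : ℕ → ℕ} {x j : ℕ} (hx : x ≤ k) (fx : f x = j) :
    a x ≤ psh k f a j := by
  unfold psh
  have h1 := Finset.single_le_sum (f := fun i => if f i = j then a i else 0)
    (fun i _ => Nat.zero_le _) (Finset.mem_range.2 (Nat.lt_succ_of_le hx))
  simpa [fx] using h1

theorem psh_two {k : ℕ} {f a : ℕ → ℕ} {x y j : ℕ} (hx : x ≤ k) (hy : y ≤ k) (hxy : x ≠ y)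
    (fx : f x = j) (fy : f y = j) : a x + a y ≤ psh k f a j := by
  unfold psh
  have hsub : ({x, y} : Finset ℕ) ⊆ Finset.range (k + 1) := by
    intro t ht
    rw [Finset.mem_insert, Finset.mem_singleton] at ht
    rw [Finset.mem_range]
    omega
  refine le_trans (le_of_eq ?_) (Finset.sum_le_sum_of_subset hsub)
  rw [Finset.sum_pair hxy, if_pos fx, if_pos fy]

/-- collapse the blocks `p..q` to the block `r` -/
def col (p q r : ℕ) : ℕ → ℕ := fun j => if p ≤ j ∧ j ≤ q then r else j

theorem col_in {p q r j : ℕ} (h1 : p ≤ j) (h2 : j ≤ q) : col p q r j = r := if_pos ⟨h1, h2⟩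

theorem col_bmap {k p q r : ℕ} (h1 : p ≤ r) (h2 : r ≤ q) (h3 : q ≤ k) : BMap k k (col p q r) := by
  constructor
  · intro i j hij hj
    unfold col
    split_ifs <;> omega
  · intro i hi
    unfold col
    split_ifs <;> omega

theorem col_fix {k p q r : ℕ} {a : ℕ → ℕ} (h : ∀ t, p ≤ t → t ≤ q → t ≠ r → a t = 0) :
    ∀ j ≤ k, psh k (col p q r) a j = a j := by
  apply psh_fix
  intro t _ h0
  unfold col
  split_ifs with hc
  · by_contra hne
    exact h0 (h t hc.1 hc.2 (fun h' => hne h'.symm))
  · rfl

section

variable {n : ℕ} {R : FC} {k : ℕ}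

/-- no absorption: all related vectors have entries at most one -/
theorem small (trn : TrnStmt) (hvp : HvpStmt) (hL : LR n R) {a v : ℕ → ℕ}
    (hno : ∀ s ≤ k, ¬ Ab n R k a s) (h : R.R k a v) : ∀ j ≤ k, v j < 2 := by
  intro j hj
  by_contra h2
  have h3 : Hv v j := ⟨by omega, j, le_refl j, by omega⟩
  exact hno j hj (((trn n R k a j).1 v h).2 ((hvp n R hL k v j hj).1 h3))

/-- the case without absorption -/
theorem core2 (trn : TrnStmt) (hvp : HvpStmt) (hL : LR n R) (hN : ND R) {a b : ℕ → ℕ}
    (hno : ∀ s ≤ k, ¬ Ab n R k a s) (h : R.R k a b) {j₀ : ℕ} (hj : j₀ ≤ k)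
    (heq : ∀ t < j₀, a t = b t) (ha : a j₀ ≠ 0) (hb : b j₀ = 0) : False := by
  have hs := fun v (hv : R.R k a v) => small trn hvp hL hno hv
  by_cases h1 : ∃ c, c < j₀ ∧ a c ≠ 0
  · -- the last light block before `j₀`
    obtain ⟨c, ⟨hc1, hc2⟩, hc3⟩ : ∃ c, (c < j₀ ∧ a c ≠ 0) ∧ ∀ t, c < t → t < j₀ → a t = 0 := by
      obtain ⟨c0, hc0⟩ := h1
      have hne : ((Finset.range j₀).filter fun c => a c ≠ 0).Nonempty :=
        ⟨c0, Finset.mem_filter.2 ⟨Finset.mem_range.2 hc0.1, hc0.2⟩⟩
      refine ⟨((Finset.range j₀).filter fun c => a c ≠ 0).max' hne, ?_, ?_⟩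
      · have := Finset.max'_mem _ hne
        rw [Finset.mem_filter, Finset.mem_range] at this
        exact this
      · intro t ht1 ht2
        by_contra h0
        have := Finset.le_max' ((Finset.range j₀).filter fun c => a c ≠ 0) t
          (Finset.mem_filter.2 ⟨Finset.mem_range.2 ht2, h0⟩)
        omega
    have hfix : ∀ j ≤ k, psh k (col c j₀ c) b j = b j := by
      apply col_fix
      intro t ht1 ht2 ht3
      rcases Nat.lt_or_ge t j₀ with h4 | h4
      · rw [← heq t h4]
        exact hc3 t (by omega) h4
      · have : t = j₀ := by omega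
        rw [this]
        exact hb
    have hp : R.R k (psh k (col c j₀ c) a) b :=
      R.ext (fun j _ => rfl) hfix (R.push k _ (col_bmap (le_refl c) hc1.le hj) h)
    have h5 := hs _ (R.trans h (R.symm hp)) c (by omega)
    have h6 := psh_two (k := k) (f := col c j₀ c) (a := a) (x := c) (y := j₀) (j := c) (by omega)
      hj (by omega) (col_in (le_refl c) hc1.le) (col_in hc1.le (le_refl _))
    omega
  · have h1' : ∀ c < j₀, a c = 0 := by
      intro c hc
      by_contra h0
      exact h1 ⟨c, hc, h0⟩
    by_cases h2 : ∃ t, t ≤ k ∧ b t ≠ 0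
    · classical
      -- the first light block of `b`
      obtain ⟨c, ⟨hc1, hc2⟩, hc3⟩ : ∃ c, (c ≤ k ∧ b c ≠ 0) ∧ ∀ t < c, b t = 0 := by
        refine ⟨Nat.find h2, Nat.find_spec h2, ?_⟩
        intro t ht
        by_contra h0
        have := Nat.find_min h2 ht
        exact this ⟨by have := (Nat.find_spec h2).1; omega, h0⟩
      have hcj : j₀ < c := by
        rcases Nat.lt_trichotomy c j₀ with h3 | h3 | h3
        · exact absurd (heq c h3 ▸ h1' c h3) hc2
        · rw [h3] at hc2
          exact absurd hb hc2
        · exact h3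
      have hfix : ∀ j ≤ k, psh k (col j₀ c c) b j = b j := by
        apply col_fix
        intro t _ ht2 ht3
        exact hc3 t (by omega)
      have hp : R.R k (psh k (col j₀ c c) a) b :=
        R.ext (fun j _ => rfl) hfix (R.push k _ (col_bmap hcj.le (le_refl c) hc1) h)
      have hv : R.R k a (psh k (col j₀ c c) a) := R.trans h (R.symm hp)
      have hvc := hs _ hv c hc1
      have htwo : ∀ y, j₀ < y → y ≤ c → a y = 0 := by
        intro y hy1 hy2
        by_contra h0
        have h6 := psh_two (k := k) (f := col j₀ c c) (a := a) (x := j₀) (y := y) (j := c)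
          hj (by omega) (by omega) (col_in (le_refl _) hcj.le) (col_in hy1.le hy2)
        omega
      have haj : a j₀ < 2 := hs a (R.refl k a) j₀ hj
      by_cases h3 : ∃ t, c < t ∧ t ≤ k ∧ a t ≠ 0
      · obtain ⟨d, ⟨hd1, hd2, hd3⟩, hd4⟩ : ∃ d, (c < d ∧ d ≤ k ∧ a d ≠ 0) ∧
            ∀ t, c < t → t < d → a t = 0 := by
          refine ⟨Nat.find h3, Nat.find_spec h3, ?_⟩
          intro t ht1 ht2
          by_contra h0
          have := Nat.find_min h3 ht2
          exact this ⟨ht1, by have := (Nat.find_spec h3).2.1; omega, h0⟩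
        have hfix2 : ∀ j ≤ k, psh k (col c d d) a j = a j := by
          apply col_fix
          intro t ht1 ht2 ht3
          rcases Nat.eq_or_lt_of_le ht1 with h4 | h4
          · rw [← h4]
            exact htwo c hcj (le_refl c)
          · exact hd4 t h4 (by omega)
        have hp2 : R.R k a (psh k (col c d d) (psh k (col j₀ c c) a)) :=
          R.ext hfix2 (fun j _ => rfl) (R.push k _ (col_bmap hd1.le (le_refl d) hd2) hv)
        have h5 := hs _ hp2 d hd2
        have h6 := psh_two (k := k) (f := col c d d) (a := psh k (col j₀ c c) a) (x := c) (y := d)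
          (j := d) hc1 hd2 (by omega) (col_in (le_refl _) hd1.le) (col_in hd1.le (le_refl _))
        have h7 : a j₀ ≤ psh k (col j₀ c c) a c :=
          psh_one hj (col_in (le_refl _) hcj.le)
        have h8 : a d ≤ psh k (col j₀ c c) a d := by
          apply psh_one hd2
          unfold col
          rw [if_neg (by omega)]
        omega
      · -- `a` has degree one
        have hz : ∀ t ≤ k, t ≠ j₀ → a t = 0 := by
          intro t ht hne
          rcases Nat.lt_or_gt_of_ne hne with h4 | h4
          · exact h1' t h4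
          · rcases Nat.lt_or_ge c t with h5 | h5
            · by_contra h0
              exact h3 ⟨t, h5, ht, h0⟩
            · exact htwo t h4 h5
        have hdeg : deg k a ≤ 1 := by
          unfold deg
          rw [Finset.sum_eq_single j₀]
          · omega
          · intro t ht hne
            rw [Finset.mem_range] at ht
            exact hz t (by omega) hne
          · intro hn
            exact absurd (Finset.mem_range.2 (by omega)) hn
        have := hN k a b h hdeg j₀ hj
        omega
    · have h2' : ∀ t ≤ k, b t = 0 := by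
        intro t ht
        by_contra h0
        exact h2 ⟨t, ht, h0⟩
      have hdeg : deg k b ≤ 1 := by
        unfold deg
        rw [Finset.sum_eq_zero]
        · omega
        · intro t ht
          rw [Finset.mem_range] at ht
          exact h2' t (by omega)
      have := hN k b a (R.symm h) hdeg j₀ hj
      omega

/-- without absorption related vectors are equal -/
theorem noabs (trn : TrnStmt) (hvp : HvpStmt) (hL : LR n R) (hN : ND R) {a b : ℕ → ℕ}
    (hno : ∀ s ≤ k, ¬ Ab n R k a s) (h : R.R k a b) : ∀ j ≤ k, a j = b j := by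
  by_contra hcon
  have hex : ∃ j, j ≤ k ∧ a j ≠ b j := by
    by_contra h1
    apply hcon
    intro j hj
    by_contra h2
    exact h1 ⟨j, hj, h2⟩
  classical
  obtain ⟨hj1, hj2⟩ := Nat.find_spec hex
  have hmin : ∀ t < Nat.find hex, a t = b t := by
    intro t ht
    by_contra h0
    exact Nat.find_min hex ht ⟨by omega, h0⟩
  have hno' : ∀ s ≤ k, ¬ Ab n R k b s := fun s hs hab =>
    hno s hs (((trn n R k a s).1 b h).2 hab)
  have ha2 := small trn hvp hL hno (R.refl k a) _ hj1
  have hb2 := small trn hvp hL hno h _ hj1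
  by_cases ha : a (Nat.find hex) = 0
  · refine core2 trn hvp hL hN hno' (R.symm h) hj1 (fun t ht => (hmin t ht).symm) ?_ ha
    omega
  · refine core2 trn hvp hL hN hno h hj1 hmin ha ?_
    omega

/-- the case with absorption behind `i` -/
theorem coreA (trn : TrnStmt) (hvp : HvpStmt) (abs : AbsStmt) (hL : LR n R)
    {a b : ℕ → ℕ} (h : R.R k a b) {i p : ℕ} (hi : i ≤ k) (hp : i < p) (hpk : p ≤ k)
    (hpa : Ab n R k a p) (heq : ∀ t < i, a t = b t) (ha : a i = 1) (hb : b i = 0) :
    Ab n R k a i := by
  have hn := hL.pos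
  -- `b' = b + e_i` absorbs at `i`
  obtain ⟨b', hb'⟩ : ∃ b' : ℕ → ℕ, b' = fun j => b j + if j = i then 1 else 0 := ⟨_, rfl⟩
  have h1 : Ab n R k b' i := by
    have h2 : R.R k (fun j => a j + if j = i then 1 else 0) b' := by
      rw [hb']
      exact R.add (fun j => if j = i then 1 else 0) h
    have h3 : Hv (fun j => a j + if j = i then 1 else 0) i := by
      refine ⟨?_, i, le_refl i, ?_⟩ <;> simp [ha]
    exact ((trn n R k _ i).1 _ h2).1 ((hvp n R hL k _ i hi).1 h3)
  have hb'a : ∀ j ≤ i, b' j = a j := by
    intro j hj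
    rw [hb']
    rcases Nat.eq_or_lt_of_le hj with h2 | h2
    · subst h2
      simp [ha, hb]
    · show b j + (if j = i then 1 else 0) = a j
      rw [if_neg (by omega), heq j h2]
      rfl
  -- the map
  obtain ⟨f, hf⟩ : ∃ f : ℕ → ℕ, f = fun j => if j ≤ i then j else p := ⟨_, rfl⟩
  have hf1 : ∀ j, j ≤ i → f j = j := by
    intro j hj
    rw [hf]
    exact if_pos hj
  have hf2 : ∀ j, i < j → f j = p := by
    intro j hj
    rw [hf]
    exact if_neg (by omega)
  have hfB : BMap k k f := by
    constructor
    · intro x y hxy hy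
      rcases Nat.lt_or_ge i x with h2 | h2
      · rw [hf2 x h2, hf2 y (by omega)]
      · rw [hf1 x h2]
        rcases Nat.lt_or_ge i y with h3 | h3
        · rw [hf2 y h3]
          omega
        · rw [hf1 y h3]
          exact hxy
    · intro x hx
      rcases Nat.lt_or_ge i x with h2 | h2
      · rw [hf2 x h2]
        exact hpk
      · rw [hf1 x h2]
        exact hx
  have h4 : Ab n R k (psh k f b') i := by
    have := (trn n R k b' i).2.2.2 k f hfB hi h1
    rwa [hf1 i (le_refl i)] at this
  have hp1 : ∀ j ≤ i, psh k f b' j = a j := by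
    intro j hj
    unfold psh
    have h2 : ∑ t ∈ Finset.range (k + 1), (if f t = j then b' t else 0)
        = ∑ t ∈ Finset.range (k + 1), (if t = j then b' t else 0) := by
      refine Finset.sum_congr rfl fun t _ => ?_
      rcases Nat.lt_or_ge i t with h3 | h3
      · rw [hf2 t h3, if_neg (by omega), if_neg (by omega)]
      · rw [hf1 t h3]
    rw [h2, Finset.sum_ite_eq', if_pos (Finset.mem_range.2 (by omega))]
    exact hb'a j hj
  have hp2 : ∀ j, i < j → j ≠ p → psh k f b' j = 0 := by
    intro j hj hjp
    unfold psh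
    refine Finset.sum_eq_zero fun t _ => ?_
    rcases Nat.lt_or_ge i t with h3 | h3
    · rw [hf2 t h3, if_neg (fun h => hjp h.symm)]
    · rw [hf1 t h3, if_neg (by omega)]
  -- the correction
  obtain ⟨B, hB⟩ : ∃ B, B = psh k f b' p := ⟨_, rfl⟩
  obtain ⟨d, hd⟩ : ∃ d : ℕ → ℕ, d = fun j => if j ≤ i then 0 else
      if j = p then a p + 2 * n + (n - 1) * B else a j := ⟨_, rfl⟩
  have h5 := (trn n R k (psh k f b') i).2.1 d h4
  obtain ⟨m, rfl⟩ : ∃ m, n = m + 1 := ⟨n - 1, by omega⟩
  have he : ∀ j, j ≠ p → psh k f b' j + d j = a j := by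
    intro j hj
    rw [hd]
    show psh k f b' j + (if j ≤ i then 0 else
      if j = p then a p + 2 * (m + 1) + (m + 1 - 1) * B else a j) = a j
    rcases Nat.lt_or_ge i j with h3 | h3
    · rw [hp2 j h3 hj, if_neg (by omega), if_neg hj, Nat.zero_add]
    · rw [hp1 j h3, if_pos h3, Nat.add_zero]
  have hep : psh k f b' p + d p = a p + 2 * (m + 1) + (m + 1) * B := by
    rw [hd, ← hB]
    show B + (if p ≤ i then 0 else
      if p = p then a p + 2 * (m + 1) + (m + 1 - 1) * B else a p)
      = a p + 2 * (m + 1) + (m + 1) * B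
    rw [if_neg (by omega), if_pos rfl, Nat.add_sub_cancel]
    ring
  have h6 : Nq (m + 1) k (ad (m + 1) a p) (fun j => psh k f b' j + d j) := by
    intro j _
    by_cases hjp : j = p
    · subst hjp
      right
      have e1 : ad (m + 1) a j j = a j + 2 * (m + 1) := by
        unfold ad
        rw [if_pos rfl]
      refine ⟨⟨by omega, j, le_refl j, by omega⟩, ⟨?_, j, le_refl j, ?_⟩, ?_⟩
      · show psh k f b' j + d j ≠ 0
        rw [hep]
        omega
      · show 2 ≤ psh k f b' j + d j
        rw [hep]
        omega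
      · show ad (m + 1) a j j ≡ psh k f b' j + d j [MOD (m + 1)]
        rw [e1, hep]
        unfold Nat.ModEq
        rw [Nat.add_mul_mod_self_left]
    · left
      show ad (m + 1) a p j = psh k f b' j + d j
      rw [he j hjp]
      unfold ad
      rw [if_neg hjp, Nat.add_zero]
  have h7 := (abs (m + 1) R hL k (ad (m + 1) a p)).2 _ h6
  have h8 : R.R k a (fun j => psh k f b' j + d j) := R.trans hpa h7
  exact ((trn (m + 1) R k a i).1 _ h8).2 h5

end

/-- **KEY**. -/
theorem key (trn : TrnStmt) (hvp : HvpStmt) (abs : AbsStmt) : KeyStmt := by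
  intro n R hL hN k a b h i
  induction i using Nat.strong_induction_on generalizing a b with
  | _ i ih =>
    intro hi hna
    have hn := hL.pos
    -- the core, for an arbitrary pair
    have core : ∀ a b : ℕ → ℕ, R.R k a b → ¬ Ab n R k a i → a i = 1 → b i = 0 → False := by
      intro a b h hna ha hb
      have h1 : ∀ s < i, ¬ Ab n R k a s := by
        intro s hs hab
        have h2 : Hv (ad n a s) i := by
          refine ⟨?_, s, hs.le, ?_⟩
          · unfold ad
            rw [if_neg (by omega), ha]
            omega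
          · unfold ad
            rw [if_pos rfl]
            omega
        exact hna (((trn n R k a i).1 _ hab).2 ((hvp n R hL k _ i hi).1 h2))
      have heq : ∀ t < i, a t = b t := fun t ht => ih t ht a b h (by omega) (h1 t ht)
      by_cases hS : ∃ s, s ≤ k ∧ Ab n R k a s
      · obtain ⟨p, hpk, hpa⟩ := hS
        have hip : i < p := by
          rcases Nat.lt_trichotomy p i with h3 | h3 | h3
          · exact absurd hpa (h1 p h3)
          · rw [h3] at hpa
            exact absurd hpa hna
          · exact h3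
        exact hna (coreA trn hvp abs hL h hi hip hpk hpa heq ha hb)
      · have := noabs trn hvp hL hN (fun s hs hab => hS ⟨s, hs, hab⟩) h i hi
        omega
    have hnb : ¬ Ab n R k b i := fun hab => hna (((trn n R k a i).1 b h).2 hab)
    have hle : ∀ c : ℕ → ℕ, ¬ Ab n R k c i → c i < 2 := by
      intro c hc
      by_contra h2
      exact hc ((hvp n R hL k c i hi).1 ⟨by omega, i, le_refl i, by omega⟩)
    have ha := hle a hna
    have hb := hle b hnb
    by_contra hne
    by_cases h0 : a i = 0
    · exact core b a (R.symm h) hnb (by omega) h0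
    · exact core a b h hna (by omega) (by omega)

end Pool.Agent.MWL.H7
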