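import Pool.Agent.MWL.Stmts

/-!
# Block MWL, row CHR: the structure of a functorial congruence
-/

set_option autoImplicit false

namespace Pool.Agent.MWL.H7

open Pool.Agent.MVO

/-- **CHR**. -/
theorem chr (trn : TrnStmt) (key : KeyStmt) (rmv : RmvStmt) (clo : CloStmt) : ChrStmt := by
  classical
  intro n R d m hL hN hD k a b
  constructor
  · intro h
    have h3 := (rmv n R d m hL hD k a).2.2 b h
    exact ⟨fun i _ => (trn n R k a i).1 b h, fun i hi hn => key n R hL hN k a b h i hi hn,
      h3.1, h3.2⟩
  · rintro ⟨h1, h2, h3, h4⟩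
    refine clo n R d m hL hD k a b ((Finset.range (k + 1)).filter fun i => Ab n R k a i) ?_ ?_ h3 h4
    · intro i hi
      rw [Finset.mem_filter, Finset.mem_range] at hi
      exact ⟨by omega, hi.2, (h1 i (by omega)).1 hi.2⟩
    · intro i hi hn
      refine h2 i hi fun h => hn ?_
      rw [Finset.mem_filter, Finset.mem_range]
      exact ⟨by omega, h⟩

end Pool.Agent.MWL.H7
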